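import Mathlib

set_option autoImplicit false

open Cardinal Set

namespace Pool.Agent.Sel

/-- A well-ordered set whose cardinality is least with more than continuum many subsets. -/
structure Good (W : Type) [LinearOrder W] : Prop where
  wf : WellFoundedLT W
  big : 𝔠 < 2 ^ #W
  ini : ∀ w : W, #(Iio w) < #W
  least : ∀ μ : Cardinal.{0}, μ < #W → 2 ^ μ ≤ 𝔠

theorem exists_good : ∃ (W : Type) (_ : LinearOrder W), Good W ∧ #W ≤ 𝔠 := by
  classical
  let S : Set Cardinal.{0} := {κ | 𝔠 < 2 ^ κ}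
  have hS : 𝔠 ∈ S := cantor 𝔠
  have hne : S.Nonempty := ⟨_, hS⟩
  obtain ⟨κ, hκS, hmin⟩ := Cardinal.lt_wf.has_min S hne
  refine ⟨κ.ord.ToType, inferInstance, ⟨inferInstance, ?_, ?_, ?_⟩, ?_⟩
  · rw [mk_ord_toType]; exact hκS
  · intro w
    have := mk_Iio_lt (α := κ.ord.ToType) w (by simp)
    exact this
  · intro μ hμ
    rw [mk_ord_toType] at hμ
    by_contra h
    exact hmin μ (not_le.1 h) hμ
  · rw [mk_ord_toType]
    by_contra h
    exact hmin _ hS (not_le.1 h)

variable {W : Type} [LinearOrder W]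

namespace Good

theorem aleph0_lt (h : Good W) : ℵ₀ < #W := by
  by_contra hc
  rw [not_lt] at hc
  have : (2 : Cardinal.{0}) ^ #W ≤ 2 ^ ℵ₀ := power_le_power_left two_ne_zero hc
  rw [two_power_aleph0] at this
  exact absurd h.big (not_lt.2 this)

/-- sets of small size are bounded -/
theorem bdd (h : Good W) (S : Set W) (hS : #S < #W) : ∃ b, ∀ s ∈ S, s < b := by
  classical
  by_contra hc
  push Not at hc
  -- `hc : ∀ b, ∃ s ∈ S, b ≤ s`
  have hle : #(Set W) ≤ #((s : S) → Set (Iic (s : W))) := by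
    let F : Set W → ((s : S) → Set (Iic (s : W))) := fun A s => {x | (x : W) ∈ A}
    refine Cardinal.mk_le_of_injective (f := F) ?_
    intro A B hAB
    ext x
    obtain ⟨s, hs, hxs⟩ := hc x
    have := congrFun hAB ⟨s, hs⟩
    have h2 : (⟨x, hxs⟩ : Iic s) ∈ F A ⟨s, hs⟩ ↔ (⟨x, hxs⟩ : Iic s) ∈ F B ⟨s, hs⟩ := by rw [this]
    exact h2
  have hIic : ∀ s : W, #(Iic s) < #W := by
    intro s
    have : Iic s = insert s (Iio s) := by
      ext x; simp [le_iff_eq_or_lt]
    rw [this]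
    refine lt_of_le_of_lt (mk_insert_le) ?_
    have hal := h.aleph0_lt
    exact add_lt_of_lt hal.le (h.ini s) (lt_of_lt_of_le one_lt_aleph0 hal.le)
  have h1 : #((s : S) → Set (Iic (s : W))) ≤ 𝔠 := by
    rw [mk_pi]
    calc Cardinal.prod (fun s : S => #(Set (Iic (s : W)))) ≤ Cardinal.prod (fun _ : S => 𝔠) := by
          refine prod_le_prod _ _ fun s => ?_
          rw [mk_set]
          exact h.least _ (hIic s)
      _ = 𝔠 ^ #S := by simp
      _ = 2 ^ (ℵ₀ * #S) := by rw [← two_power_aleph0, power_mul]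
      _ ≤ 𝔠 := by
          refine h.least _ ?_
          exact mul_lt_of_lt h.aleph0_lt.le h.aleph0_lt hS
  rw [mk_set] at hle
  exact absurd h.big (not_lt.2 (hle.trans h1))

end Good

/-- small sets: those carrying a regressive function with bounded preimages -/
def Small (A : Set W) : Prop :=
  ∃ f : W → W, (∀ a ∈ A, f a < a) ∧ ∀ w, ∃ b, ∀ a ∈ A, f a ≤ w → a < b

theorem Small.mono {A B : Set W} (hB : Small B) (hAB : A ⊆ B) : Small A := by
  obtain ⟨f, hf, hb⟩ := hB
  refine ⟨f, fun a ha => hf a (hAB ha), fun w => ?_⟩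
  obtain ⟨b, hb⟩ := hb w
  exact ⟨b, fun a ha => hb a (hAB ha)⟩

theorem Small.iUnion (h : Good W) {A : ℕ → Set W} (hA : ∀ n, Small (A n)) :
    Small (⋃ n, A n) := by
  classical
  choose f hf hb using hA
  choose b hb using hb
  let idx : W → ℕ := fun a => if ha : ∃ n, a ∈ A n then Nat.find ha else 0
  have hidx : ∀ a ∈ ⋃ n, A n, a ∈ A (idx a) := by
    intro a ha
    have ha' : ∃ n, a ∈ A n := by simpa using ha
    simp only [idx, dif_pos ha']
    exact Nat.find_spec ha'
  refine ⟨fun a => f (idx a) a, fun a ha => hf _ a (hidx a ha), fun w => ?_⟩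
  obtain ⟨B, hB⟩ := h.bdd (range fun n => b n w) (by
    refine lt_of_le_of_lt ?_ h.aleph0_lt
    exact mk_range_le.trans (by simp))
  refine ⟨B, fun a ha haw => ?_⟩
  exact lt_trans (hb (idx a) w a (hidx a ha) haw) (hB _ ⟨idx a, rfl⟩)

theorem not_small_Ioi (h : Good W) (x : W) : ¬ Small (Ioi x) := by
  classical
  rintro ⟨f, hf, hb⟩
  choose b hb using hb
  -- an increasing sequence
  obtain ⟨x', hx'⟩ := h.bdd {x} (by simpa using (lt_trans one_lt_aleph0 h.aleph0_lt))
  have hx' : x < x' := hx' x rfl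
  let d : ℕ → W := fun n => Nat.rec x' (fun _ y => max y (b y)) n
  have hd0 : d 0 = x' := rfl
  have hds : ∀ n, d (n + 1) = max (d n) (b (d n)) := fun n => rfl
  obtain ⟨B, hB⟩ := h.bdd (range d) (by
    refine lt_of_le_of_lt ?_ h.aleph0_lt
    exact mk_range_le.trans (by simp))
  haveI := h.wf
  have hwf : WellFounded ((· < ·) : W → W → Prop) := wellFounded_lt
  let U : Set W := {u | ∀ n, d n ≤ u}
  have hU : U.Nonempty := ⟨B, fun n => (hB _ ⟨n, rfl⟩).le⟩
  obtain ⟨δ, hδU, hδmin⟩ := hwf.has_min U hU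
  have hxδ : x < δ := lt_of_lt_of_le hx' (hδU 0)
  have hfδ : f δ < δ := hf δ hxδ
  have : f δ ∉ U := fun hm => hδmin _ hm hfδ
  simp only [U, mem_setOf_eq, not_forall, not_le] at this
  obtain ⟨n, hn⟩ := this
  have h1 : δ < b (d n) := hb (d n) δ hxδ hn.le
  have h2 : b (d n) ≤ d (n + 1) := by rw [hds]; exact le_max_right _ _
  exact absurd (lt_of_lt_of_le h1 (h2.trans (hδU (n + 1)))) (lt_irrefl _)

theorem main :
    ¬ (∀ N : Set (Set (Set.Icc (0:ℝ) 1)),
      (∀ a b : ℝ,
        (Subtype.val : Set.Icc (0:ℝ) 1 → ℝ) ⁻¹' Set.Icc a b ∈ N ∧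
        (Subtype.val : Set.Icc (0:ℝ) 1 → ℝ) ⁻¹' Set.Ico a b ∈ N ∧
        (Subtype.val : Set.Icc (0:ℝ) 1 → ℝ) ⁻¹' Set.Ioc a b ∈ N ∧
        (Subtype.val : Set.Icc (0:ℝ) 1 → ℝ) ⁻¹' Set.Ioo a b ∈ N) →
      (∀ s ∈ N, sᶜ ∈ N) →
      (∀ f : ℕ → Set (Set.Icc (0:ℝ) 1), (∀ n, f n ∈ N) → (⋃ n, f n) ∈ N) →
      (∀ P : Set (Set (Set.Icc (0:ℝ) 1)),
        P.PairwiseDisjoint id →
        ⋃₀ P = Set.univ →
        (∀ p ∈ P, ∃ x ∈ p, ∃ y ∈ p, x ≠ y) →
        ∃ S ∈ N, ∀ p ∈ P, ∃! x, x ∈ p ∧ x ∈ S) →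
      N = Set.univ) := by
  classical
  intro H
  obtain ⟨W, _, hW, hWc⟩ := exists_good
  have hI : #(Icc (0:ℝ) 1) = 𝔠 := mk_Icc_real zero_lt_one
  obtain ⟨e⟩ : Nonempty (W ↪ Icc (0:ℝ) 1) := by
    rw [← Cardinal.le_def, hI]; exact hWc
  let N : Set (Set (Icc (0:ℝ) 1)) :=
    {A | ∃ B : Set (Icc (0:ℝ) 1), MeasurableSet B ∧ Small {w : W | ¬ (e w ∈ A ↔ e w ∈ B)}}
  have hempty : Small (∅ : Set W) := by
    refine ⟨id, by simp, fun w => ⟨w, by simp⟩⟩
  have hmeas : ∀ A : Set (Icc (0:ℝ) 1), MeasurableSet A → A ∈ N := by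
    intro A hA
    refine ⟨A, hA, ?_⟩
    simpa using hempty
  have key := H N ?_ ?_ ?_ ?_
  · -- derive contradiction
    have hall : ∀ A : Set (Icc (0:ℝ) 1), A ∈ N := by intro A; rw [key]; trivial
    have hcode : ∀ β : W, Nonempty (Set (Iio β) ↪ Set ℕ) := by
      intro β
      rw [← Cardinal.le_def, mk_set, mk_set, mk_nat, two_power_aleph0]
      exact hW.least _ (hW.ini β)
    let code : ∀ β : W, Set (Iio β) ↪ Set ℕ := fun β => (hcode β).some
    let R : Set W → (β : W) → Set (Iio β) := fun F β => {x | (x : W) ∈ F}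
    let AF : Set W → ℕ → Set W := fun F n => {β | n ∈ code β (R F β)}
    have hB : ∀ (F : Set W) (n : ℕ), ∃ B : Set (Icc (0:ℝ) 1), MeasurableSet B ∧
        Small {w : W | ¬ (w ∈ AF F n ↔ e w ∈ B)} := by
      intro F n
      obtain ⟨B, hB, hs⟩ := hall (e '' (AF F n))
      refine ⟨B, hB, ?_⟩
      convert hs using 3
      simp
    choose B hBm hBs using hB
    let G : Set W → (ℕ → {B : Set (Icc (0:ℝ) 1) // MeasurableSet B}) :=
      fun F n => ⟨B F n, hBm F n⟩
    have hcardM : #{B : Set (Icc (0:ℝ) 1) // MeasurableSet B} ≤ 𝔠 := by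
      obtain ⟨s, hs, hgen⟩ := (inferInstance : MeasurableSpace.CountablyGenerated (Icc (0:ℝ) 1)).isCountablyGenerated
      have h1 := MeasurableSpace.cardinal_measurableSet_le_continuum (s := s)
        ((mk_le_aleph0_iff.2 hs.to_subtype).trans aleph0_le_continuum)
      rw [← hgen] at h1
      exact h1
    have hcardG : #(ℕ → {B : Set (Icc (0:ℝ) 1) // MeasurableSet B}) ≤ 𝔠 := by
      rw [← power_def, mk_nat]
      calc #{B : Set (Icc (0:ℝ) 1) // MeasurableSet B} ^ ℵ₀ ≤ 𝔠 ^ ℵ₀ :=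
            power_le_power_right hcardM
        _ = 𝔠 := continuum_power_aleph0
    have hninj : ¬ Function.Injective G := by
      intro hinj
      have := (Cardinal.mk_le_of_injective hinj).trans hcardG
      rw [mk_set] at this
      exact absurd hW.big (not_lt.2 this)
    simp only [Function.Injective, not_forall] at hninj
    obtain ⟨F, F', hG, hne⟩ := hninj
    have hBB : ∀ n, B F n = B F' n := fun n => congrArg Subtype.val (congrFun hG n)
    have hx : ∃ x, ¬ (x ∈ F ↔ x ∈ F') := by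
      by_contra hcon
      push Not at hcon
      exact hne (Set.ext hcon)
    obtain ⟨x, hx⟩ := hx
    apply not_small_Ioi hW x
    have hU : Small (⋃ n, ({w : W | ¬ (w ∈ AF F (n / 2) ↔ e w ∈ B F (n / 2))} ∪
        {w : W | ¬ (w ∈ AF F' (n / 2) ↔ e w ∈ B F' (n / 2))})) := by
      apply Small.iUnion hW
      intro n
      have : ({w : W | ¬ (w ∈ AF F (n / 2) ↔ e w ∈ B F (n / 2))} ∪
        {w : W | ¬ (w ∈ AF F' (n / 2) ↔ e w ∈ B F' (n / 2))}) =
        ⋃ k : ℕ, (if k = 0 then {w : W | ¬ (w ∈ AF F (n / 2) ↔ e w ∈ B F (n / 2))} else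
          {w : W | ¬ (w ∈ AF F' (n / 2) ↔ e w ∈ B F' (n / 2))}) := by
        ext w
        simp only [mem_union, mem_iUnion]
        constructor
        · rintro (h | h)
          · exact ⟨0, by simpa using h⟩
          · exact ⟨1, by simpa using h⟩
        · rintro ⟨k, hk⟩
          by_cases hk0 : k = 0
          · left; simpa [hk0] using hk
          · right; simpa [hk0] using hk
      rw [this]
      apply Small.iUnion hW
      intro k
      by_cases hk0 : k = 0
      · simp only [hk0, if_true]; exact hBs F _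
      · simp only [hk0, if_false]; exact hBs F' _
    refine hU.mono ?_
    intro w hw
    have hR : R F w ≠ R F' w := by
      intro heq
      have h3 : (⟨x, hw⟩ : Iio w) ∈ R F w ↔ (⟨x, hw⟩ : Iio w) ∈ R F' w := by rw [heq]
      exact hx h3
    have hc : code w (R F w) ≠ code w (R F' w) := fun hc => hR ((code w).injective hc)
    have : ∃ n, ¬ (n ∈ code w (R F w) ↔ n ∈ code w (R F' w)) := by
      by_contra hcon
      push Not at hcon
      exact hc (Set.ext hcon)
    obtain ⟨n, hn⟩ := this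
    rw [mem_iUnion]
    refine ⟨2 * n, ?_⟩
    have h2 : 2 * n / 2 = n := by omega
    rw [h2]
    by_cases h4 : (w ∈ AF F n ↔ e w ∈ B F n)
    · right
      intro h5
      rw [hBB n] at h4
      exact hn (h4.trans h5.symm)
    · left; exact h4
  · intro a b
    refine ⟨hmeas _ (measurable_subtype_coe measurableSet_Icc),
      hmeas _ (measurable_subtype_coe measurableSet_Ico),
      hmeas _ (measurable_subtype_coe measurableSet_Ioc),
      hmeas _ (measurable_subtype_coe measurableSet_Ioo)⟩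
  · rintro A ⟨B, hB, hs⟩
    refine ⟨Bᶜ, hB.compl, ?_⟩
    convert hs using 3
    simp [not_iff_not]
  · intro A hA
    choose B hB hs using hA
    refine ⟨⋃ n, B n, MeasurableSet.iUnion hB, ?_⟩
    refine (Small.iUnion hW hs).mono ?_
    intro w hw
    by_contra hcon
    simp only [mem_iUnion, mem_setOf_eq, not_exists, not_not] at hcon
    apply hw
    simp only [mem_iUnion]
    exact exists_congr hcon
  · intro P hdis hcov h2
    have hsel : ∀ p ∈ P, ∃ s ∈ p, ∀ w, e w = s → ∃ x, x < w ∧ e x ∈ p := by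
      intro p hp
      obtain ⟨x, hx, y, hy, hxy⟩ := h2 p hp
      by_cases hxr : ∃ w, e w = x
      · by_cases hyr : ∃ w, e w = y
        · obtain ⟨u, rfl⟩ := hxr
          obtain ⟨v, rfl⟩ := hyr
          have huv : u ≠ v := fun h => hxy (by rw [h])
          rcases lt_or_gt_of_ne huv with h | h
          · exact ⟨e v, hy, fun w hw => ⟨u, by rw [e.injective hw]; exact h, hx⟩⟩
          · exact ⟨e u, hx, fun w hw => ⟨v, by rw [e.injective hw]; exact h, hy⟩⟩
        · exact ⟨y, hy, fun w hw => absurd ⟨w, hw⟩ hyr⟩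
      · exact ⟨x, hx, fun w hw => absurd ⟨w, hw⟩ hxr⟩
    choose! sel hsel1 hsel2 using hsel
    have huniq : ∀ p ∈ P, ∀ q ∈ P, ∀ z, z ∈ p → z ∈ q → p = q := by
      intro p hp q hq z hzp hzq
      by_contra hne
      exact Set.disjoint_left.1 (hdis hp hq hne) hzp hzq
    refine ⟨sel '' P, ⟨∅, MeasurableSet.empty, ?_⟩, ?_⟩
    · -- small
      have hch : ∀ w : W, e w ∈ sel '' P → ∃ x, x < w ∧ ∃ p ∈ P, e x ∈ p ∧ e w = sel p := by
        rintro w ⟨p, hp, hpw⟩
        obtain ⟨x, hx, hxp⟩ := hsel2 p hp w hpw.symm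
        exact ⟨x, hx, p, hp, hxp, hpw.symm⟩
      choose! f hf1 hf2 using hch
      refine ⟨f, ?_, ?_⟩
      · intro a ha
        have ha' : e a ∈ sel '' P := by simpa using ha
        exact hf1 a ha'
      · intro w
        obtain ⟨b, hb⟩ := hW.bdd {a : W | e a ∈ sel '' P ∧ f a ≤ w} (by
          have hinj : Function.Injective
              (fun a : {a : W | e a ∈ sel '' P ∧ f a ≤ w} => (⟨f a, a.2.2⟩ : Iic w)) := by
            rintro ⟨a, ha, ha2⟩ ⟨b, hb, hb2⟩ hab
            have hab' : f a = f b := congrArg Subtype.val hab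
            obtain ⟨p, hp, hfp, hap⟩ := hf2 a ha
            obtain ⟨q, hq, hfq, hbq⟩ := hf2 b hb
            rw [hab'] at hfp
            have hpq := huniq p hp q hq _ hfp hfq
            have : e a = e b := by rw [hap, hbq, hpq]
            exact Subtype.ext (e.injective this)
          refine lt_of_le_of_lt (Cardinal.mk_le_of_injective hinj) ?_
          have : Iic w = insert w (Iio w) := by
            ext x; simp [le_iff_eq_or_lt]
          rw [this]
          refine lt_of_le_of_lt (mk_insert_le) ?_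
          have hal := hW.aleph0_lt
          exact add_lt_of_lt hal.le (hW.ini w) (lt_of_lt_of_le one_lt_aleph0 hal.le))
        refine ⟨b, fun a ha haw => hb a ⟨?_, haw⟩⟩
        simpa using ha
    · intro p hp
      refine ⟨sel p, ⟨hsel1 p hp, ⟨p, hp, rfl⟩⟩, ?_⟩
      rintro y ⟨hyp, q, hq, rfl⟩
      rw [huniq p hp q hq _ hyp (hsel1 q hq)]

end Pool.Agent.Sel
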